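import Pool.Agent.QUD.StmtsRB

/-!
# Squad QUD (MP_5b0138_an), row FN3: two items on both sides
-/

set_option autoImplicit false

namespace Pool.Agent.QUD.H26

open MeasureTheory Complex Filter Topology Pool.Agent.H16Iso Pool.Agent.H62T
open Pool.Agent.AEU Pool.Agent.XQ
open Pool.Agent.H1Gen (det CCW poly)

/-- the list with two elements comes from two adjacent dying sides -/
theorem lst_two {X : Finset HP} {L x y z : ℝ} (h : Lst X L [(x, y), (x, z)]) :
    ∃ a b c d : HP, X = {a, b, c, d} ∧ Cyc a b c d ∧ Die a b c L x y ∧ Die d a b L z x := by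
  rcases h with ⟨h, _⟩ | ⟨a, b, c, d, x0, y0, _, _, _, _, h⟩ |
    ⟨a, b, c, d, x0, y0, z0, hX, hc, hd, hd', _, h⟩
  · cases h
  · simp at h
  · simp only [List.cons.injEq, Prod.mk.injEq, and_true] at h
    obtain ⟨⟨h1, h2⟩, _, h3⟩ := h
    subst h1 h2 h3
    exact ⟨a, b, c, d, hX, hc, hd, hd'⟩

theorem ar4_swap (y z l1 l2 l3 l4 : ℝ) : ar4 y z l2 l1 l4 l3 = ar4 z y l1 l2 l3 l4 := by
  unfold ar4
  ring

theorem fn3 (bri : BriStmt) (vtx : VtxStmt) (btq : BtqStmt) (tqm : TqmStmt) (tim : TimStmt)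
    (tie : TieStmt) : Fn3Stmt := by
  intro P Q L x y z x' y' z' hL hP hQ amb hiso
  obtain ⟨a, b, c, d, rfl, hc, hd1, hd2⟩ := lst_two hP
  obtain ⟨a', b', c', d', rfl, hc', hd1', hd2'⟩ := lst_two hQ
  obtain ⟨ang, tq, har⟩ := btq a b c d L x y z hc hd1 hd2
  obtain ⟨ang', tq', har'⟩ := btq a' b' c' d' L x' y' z' hc' hd1' hd2'
  obtain ⟨e1, e2, _⟩ := bri a b c d a' b' c' d' hc hc' hiso
  have vt := vtx a b c d hc
  have vt' := vtx a' b' c' d' hc'
  have t1 := tim _ _ _ _ _ _ _ _ tq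
  have t2 := tim _ _ _ _ _ _ _ _ tq'
  have hA : ar4 y z (en (vv a b c d) 1) (en (vv a b c d) 0) (en (vv a b c d) 3)
      (en (vv a b c d) 2) = ar4 y' z' (en (vv a' b' c' d') 1) (en (vv a' b' c' d') 0)
      (en (vv a' b' c' d') 3) (en (vv a' b' c' d') 2) :=
    (ar4_swap y z _ _ _ _).trans (har.symm.trans (e1.trans (har'.trans
      (ar4_swap y' z' _ _ _ _).symm)))
  have hPm : en (vv a b c d) 1 + en (vv a b c d) 0 + en (vv a b c d) 3 + en (vv a b c d) 2 =
      en (vv a' b' c' d') 1 + en (vv a' b' c' d') 0 + en (vv a' b' c' d') 3 +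
        en (vv a' b' c' d') 2 := by
    unfold pm at e2
    linarith
  have hcg : Congruent (poly (vv a b c d)) (poly (vv a' b' c' d')) := by
    rcases tie x y z x' y' z' L _ _ _ _ _ _ _ _ hL t1 t2 hA hPm amb with
      ⟨hx, _, _, h1, h0, h3, h2⟩ | ⟨hx, _, _, h1, h0, h3, h2⟩
    · refine tqm _ _ vt.1 vt'.1 (by rw [ang, ang', hx]) (Or.inl ?_)
      intro i
      fin_cases i
      · exact h0
      · exact h1
      · exact h2
      · exact h3
    · exact tqm _ _ vt.1 vt'.1 (by rw [ang, ang', hx]) (Or.inr ⟨h0, h1, h2, h3⟩)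
  rw [vt.2.1, vt'.2.1]
  exact hcg

end Pool.Agent.QUD.H26
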