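import Pool.Agent.QUD.StmtsL

/-!
# Squad QUD (MP_5b0138_an), row FST: the result of block L

The first level of two isospectral quadrilaterals.
-/

set_option autoImplicit false

namespace Pool.Agent.QUD.H26

open MeasureTheory Complex Filter Topology ProbabilityTheory Pool.Agent.H16Iso Pool.Agent.H62T
open Pool.Agent.H16F (Sublin ind)
open Pool.Agent.AEU Pool.Agent.XQ

/-- `Part` is monotone in `δ` -/
theorem part_mono {X : Finset HP} {L δ δ' : ℝ} {M N T : Finset (Finset HP)}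
    {c : Finset HP → HP → ℝ} {K : Finset HP → ℂ → ℝ} (h : Part X L δ M N T c K) (hd : δ' ≤ δ) :
    Part X L δ' M N T c K where
  sM := h.sM
  sN := h.sN
  nM := h.nM
  nN := h.nN
  torn := h.torn
  dMN := h.dMN
  dM := h.dM
  dN := h.dN
  tin := h.tin
  tinj := h.tinj
  loc := fun S hS g hg hl => h.loc S hS g hg (by linarith)
  out := fun S hS hn h1 h2 h3 g hg hl => h.out S hS hn h1 h2 h3 g hg (by linarith)
  far := fun F hF g hg hl => h.far F hF g hg (by linarith)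
  par := fun a ha a' ha' h1 h2 h3 g hg hf hl => h.par a ha a' ha' h1 h2 h3 g hg hf (by linarith)
  face := h.face

theorem small_add {L : ℝ} {f g : ℝ → ℝ} (hf : Small L f) (hg : Small L g) :
    Small L fun κ => f κ + g κ := by
  obtain ⟨C, δ, hδ, h⟩ := hf
  obtain ⟨C', δ', hδ', h'⟩ := hg
  refine ⟨|C| + |C'|, min δ δ', lt_min hδ hδ', ?_⟩
  filter_upwards [h, h', eventually_ge_atTop (0 : ℝ)] with κ h1 h2 h3
  have e1 : Real.exp (-((L + δ) * κ)) ≤ Real.exp (-((L + min δ δ') * κ)) := by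
    apply Real.exp_le_exp.2
    have := mul_le_mul_of_nonneg_right (min_le_left δ δ') h3
    nlinarith
  have e2 : Real.exp (-((L + δ') * κ)) ≤ Real.exp (-((L + min δ δ') * κ)) := by
    apply Real.exp_le_exp.2
    have := mul_le_mul_of_nonneg_right (min_le_right δ δ') h3
    nlinarith
  have a1 : |f κ| ≤ |C| * Real.exp (-((L + min δ δ') * κ)) :=
    h1.trans ((mul_le_mul_of_nonneg_right (le_abs_self C) (Real.exp_pos _).le).trans
      (mul_le_mul_of_nonneg_left e1 (abs_nonneg C)))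
  have a2 : |g κ| ≤ |C'| * Real.exp (-((L + min δ δ') * κ)) :=
    h2.trans ((mul_le_mul_of_nonneg_right (le_abs_self C') (Real.exp_pos _).le).trans
      (mul_le_mul_of_nonneg_left e2 (abs_nonneg C')))
  calc |f κ + g κ| ≤ |f κ| + |g κ| := abs_add_le _ _
    _ ≤ |C| * Real.exp (-((L + min δ δ') * κ)) + |C'| * Real.exp (-((L + min δ δ') * κ)) :=
        add_le_add a1 a2
    _ = _ := by ring

theorem small_neg {L : ℝ} {f : ℝ → ℝ} (hf : Small L f) : Small L fun κ => -f κ := by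
  obtain ⟨C, δ, hδ, h⟩ := hf
  exact ⟨C, δ, hδ, by simpa only [abs_neg] using h⟩

theorem small_congr {L : ℝ} {f g : ℝ → ℝ} (hf : Small L f) (h : ∀ κ, f κ = g κ) : Small L g := by
  have : f = g := funext h
  rwa [← this]

/-- the pairs of the list are angles -/
theorem lst_ok {X : Finset HP} {L : ℝ} {l : List (ℝ × ℝ)} (h : Lst X L l) :
    ∀ p ∈ l, 0 < p.1 ∧ p.1 < Real.pi ∧ 0 < p.2 ∧ p.2 < Real.pi ∧ Real.pi < p.1 + p.2 := by
  rcases h with ⟨h, _⟩ | ⟨a, b, c, d, x, y, _, _, hd, _, h⟩ | ⟨a, b, c, d, x, y, z, _, _, hd, hd', _, h⟩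
  · subst h
    intro p hp
    simp at hp
  · subst h
    intro p hp
    rw [List.mem_singleton] at hp
    subst hp
    exact ⟨hd.x0, hd.x1, hd.y0, hd.y1, hd.sum⟩
  · subst h
    intro p hp
    rw [List.mem_cons, List.mem_singleton] at hp
    rcases hp with hp | hp
    · subst hp
      exact ⟨hd.x0, hd.x1, hd.y0, hd.y1, hd.sum⟩
    · subst hp
      exact ⟨hd'.y0, hd'.y1, hd'.x0, hd'.x1, by have := hd'.sum; simp only; linarith⟩

theorem gsum_bd (ubd : UbdStmt) {L : ℝ} (hL : 0 < L) : ∀ l : List (ℝ × ℝ),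
    (∀ p ∈ l, 0 < p.1 ∧ p.1 < Real.pi ∧ 0 < p.2 ∧ p.2 < Real.pi ∧ Real.pi < p.1 + p.2) →
    ∃ C : ℝ, ∀ᶠ κ in atTop, |gsum L l κ| ≤ C * Real.exp (-(L * κ)) := by
  intro l
  induction l with
  | nil =>
    intro _
    refine ⟨0, Eventually.of_forall fun κ => ?_⟩
    simp [gsum]
  | cons p l ih =>
    intro h
    obtain ⟨C, hC⟩ := ih fun q hq => h q (List.mem_cons_of_mem _ hq)
    obtain ⟨h1, h2, h3, h4, h5⟩ := h p List.mem_cons_self
    obtain ⟨C', κ0, _, hC'⟩ := ubd L p.1 p.2 hL h1 h2 h3 h4 h5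
    refine ⟨C' + C, ?_⟩
    filter_upwards [hC, eventually_ge_atTop κ0] with κ k1 k2
    have e : gsum L (p :: l) κ = gE L p.1 p.2 κ + gsum L l κ := by
      simp [gsum]
    rw [e, add_mul]
    exact (abs_add_le _ _).trans (add_le_add (hC' κ k2) k1)

/-- the contradiction -/
theorem absurd_of {L C1 C2 C3 c δ : ℝ} {J G G' : ℝ → ℝ} (hc : 0 < c) (hδ : 0 < δ)
    (h1 : ∀ᶠ κ in atTop, |G κ| ≤ C1 * Real.exp (-(L * κ)))
    (h2 : ∀ᶠ κ in atTop, |G' κ| ≤ C2 * Real.exp (-(L * κ)))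
    (h3 : ∀ᶠ κ in atTop, |G κ + J κ - G' κ| ≤ C3 * Real.exp (-((L + δ) * κ)))
    (h4 : ∀ᶠ κ in atTop, c * κ ^ (1 / 2 : ℝ) * Real.exp (-(L * κ)) ≤ J κ) : False := by
  have h5 : Tendsto (fun κ : ℝ => κ ^ (1 / 2 : ℝ)) atTop atTop := tendsto_rpow_atTop (by norm_num)
  have h6 := h5.eventually_gt_atTop ((C1 + C2 + |C3|) / c)
  obtain ⟨κ, k1, k2, k3, k4, k6, k0⟩ :=
    (h1.and (h2.and (h3.and (h4.and (h6.and (eventually_ge_atTop (0 : ℝ))))))).exists
  have e0 : 0 < Real.exp (-(L * κ)) := Real.exp_pos _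
  have e1 : Real.exp (-((L + δ) * κ)) ≤ Real.exp (-(L * κ)) := by
    apply Real.exp_le_exp.2
    have := mul_nonneg hδ.le k0
    nlinarith
  have a3 : |G κ + J κ - G' κ| ≤ |C3| * Real.exp (-(L * κ)) :=
    k3.trans ((mul_le_mul_of_nonneg_right (le_abs_self C3) (Real.exp_pos _).le).trans
      (mul_le_mul_of_nonneg_left e1 (abs_nonneg C3)))
  have b1 := abs_le.1 k1
  have b2 := abs_le.1 k2
  have b3 := abs_le.1 a3
  have hJ : J κ ≤ (C1 + C2 + |C3|) * Real.exp (-(L * κ)) := by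
    rw [add_mul, add_mul]
    linarith [b1.1, b2.2, b3.2]
  have h7 : c * κ ^ (1 / 2 : ℝ) * Real.exp (-(L * κ)) ≤ (C1 + C2 + |C3|) * Real.exp (-(L * κ)) :=
    k4.trans hJ
  have h8 : c * κ ^ (1 / 2 : ℝ) ≤ C1 + C2 + |C3| := le_of_mul_le_mul_right h7 e0
  rw [div_lt_iff₀ hc] at k6
  linarith

theorem fst (pt1 : Pt1Stmt) (eq1 : Eq1Stmt) (lev : LevStmt) (ht1 : Ht1Stmt) (lst : LstStmt)
    (sum : SumStmt) (ubd : UbdStmt) : FstStmt := by
  intro fb P Q hP hQ hiso
  have pP : Pg P := by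
    obtain ⟨a, b, c, d, h, rfl⟩ := hP
    exact h.pg
  have pQ : Pg Q := by
    obtain ⟨a, b, c, d, h, rfl⟩ := hQ
    exact h.pg
  obtain ⟨L, hL, bP, bQ, hit⟩ := lev P Q pP pQ
  refine ⟨L, hL, bP, bQ, ?_⟩
  obtain ⟨δ₁, hδ₁, part₁⟩ := pt1 P L pP hL bP
  obtain ⟨δ₂, hδ₂, part₂⟩ := pt1 Q L pQ hL bQ
  obtain ⟨JP, JQ, iP, iQ, hsm⟩ := eq1 fb P Q L (min δ₁ δ₂) (N1 P L) (N1 Q L) _ _ _ _ hL
    (lt_min hδ₁ hδ₂) pP pQ (part_mono part₁ (min_le_left _ _)) (part_mono part₂ (min_le_right _ _))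
    hiso
  obtain ⟨l, hl⟩ := lst P L hP hL bP
  obtain ⟨l', hl'⟩ := lst Q L hQ hL bQ
  have s1 := sum P L l hL hl
  have s2 := sum Q L l' hL hl'
  have key : Small L fun κ => gsum L l κ + JP κ - gsum L l' κ - JQ κ :=
    small_congr (small_add (small_add hsm (small_neg s1)) s2) (fun κ => by ring)
  obtain ⟨C1, hC1⟩ := gsum_bd ubd hL l (lst_ok hl)
  obtain ⟨C2, hC2⟩ := gsum_bd ubd hL l' (lst_ok hl')
  obtain ⟨C3, δ, hδ, hC3⟩ := key
  by_cases fP : ∃ x y, FacePair P L x y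
  · by_cases fQ : ∃ x y, FacePair Q L x y
    · exact Or.inl ⟨fP, fQ⟩
    · exfalso
      have hJQ : JQ = 0 := iQ.1 (fun a a' h => fQ ⟨a, a', h⟩)
      obtain ⟨c, κ0, hc, _, hJ⟩ := iP.2 fP
      refine absurd_of (C3 := C3) hc hδ hC1 hC2 (J := JP) ?_ ((eventually_ge_atTop κ0).mono fun κ hκ => hJ κ hκ)
      refine hC3.mono fun κ hκ => ?_
      rw [hJQ] at hκ
      simpa using hκ
  · by_cases fQ : ∃ x y, FacePair Q L x y
    · exfalso
      have hJP : JP = 0 := iP.1 (fun a a' h => fP ⟨a, a', h⟩)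
      obtain ⟨c, κ0, hc, _, hJ⟩ := iQ.2 fQ
      refine absurd_of (C3 := C3) hc hδ hC2 hC1 (J := JQ) ?_ ((eventually_ge_atTop κ0).mono fun κ hκ => hJ κ hκ)
      refine hC3.mono fun κ hκ => ?_
      rw [hJP] at hκ
      rw [← abs_neg]
      have : -(gsum L l' κ + JQ κ - gsum L l κ) = gsum L l κ + (0 : ℝ → ℝ) κ - gsum L l' κ - JQ κ := by
        simp only [Pi.zero_apply]
        ring
      rw [this]
      exact hκ
    · have nP : ∀ x y, ¬ FacePair P L x y := fun x y h => fP ⟨x, y, h⟩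
      have nQ : ∀ x y, ¬ FacePair Q L x y := fun x y h => fQ ⟨x, y, h⟩
      refine Or.inr ⟨nP, nQ, l, l', hl, hl', ?_, ?_⟩
      · rcases hit with hit | hit
        · left
          intro h0
          have hne := ht1 P L pP hL bP hit nP
          rcases hl with ⟨_, h⟩ | ⟨a, b, c, d, x, y, _, _, _, _, h⟩ |
            ⟨a, b, c, d, x, y, z, _, _, _, _, _, h⟩
          · rw [h] at hne
            exact Finset.not_nonempty_empty hne
          · rw [h] at h0
            cases h0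
          · rw [h] at h0
            cases h0
        · right
          intro h0
          have hne := ht1 Q L pQ hL bQ hit nQ
          rcases hl' with ⟨_, h⟩ | ⟨a, b, c, d, x, y, _, _, _, _, h⟩ |
            ⟨a, b, c, d, x, y, z, _, _, _, _, _, h⟩
          · rw [h] at hne
            exact Finset.not_nonempty_empty hne
          · rw [h] at h0
            cases h0
          · rw [h] at h0
            cases h0
      · have hJP : JP = 0 := iP.1 nP
        have hJQ : JQ = 0 := iQ.1 nQ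
        refine ⟨C3, δ, hδ, hC3.mono fun κ hκ => ?_⟩
        rw [hJP, hJQ] at hκ
        simpa using hκ

end Pool.Agent.QUD.H26
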